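import Mathlib

set_option autoImplicit false

/-!
# Infinitely many integers `n` for which every `n - 2 ^ k` is squarefree

Call an integer `n ≥ 3` good if `n - 2 ^ k` is squarefree for every `k ≥ 1` with `2 ^ k < n`.
We prove that there are infinitely many good integers.

The proof: let `y = 2 ^ b`, let `Q` be the product of the odd primes `p ≤ y`, so `Q ≤ 4 ^ y`, and let
`M = 2 ^ (6 y)`.  For every odd `m ≤ M` the number `n = Q m` is odd, at most `2 ^ (8 y)`, and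
`n - 2 ^ k` is not divisible by any prime `p ≤ y`.  For `k < 8 y` and a prime `p` with
`y < p < 2 ^ (4 y)` at most `M / p ^ 2 + 1` values of `m ≤ M` make `n - 2 ^ k` divisible by `p ^ 2`.
The sum of `1 / p ^ 2` over the primes `p > y` is at most `8 / (b y)`, by Chebyshev's bound, so that at
most `64 M / b + 8 y 2 ^ (4 y) < M / 2` values of `m` are excluded when `b > 256`.
-/

namespace Pool.Agent.Results.MP_fcd74d_nt.InfinitelyManyGood

open Finset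

/-- `n` is good: `n ≥ 3` and `n - 2 ^ k` is squarefree for every `k ≥ 1` with `2 ^ k < n`. -/
def Good (n : ℕ) : Prop := 3 ≤ n ∧ ∀ k : ℕ, 1 ≤ k → 2 ^ k < n → Squarefree (n - 2 ^ k)

/-- The product of the odd primes up to `y`. -/
def Q (y : ℕ) : ℕ := ∏ p ∈ (Ioc 2 y).filter Nat.Prime, p

lemma Q_dvd (y : ℕ) : Q y ∣ primorial y := by
  unfold Q primorial
  apply Finset.prod_dvd_prod_of_subset
  intro p hp
  simp only [mem_filter, mem_Ioc, mem_range] at hp ⊢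
  exact ⟨by omega, hp.2⟩

lemma Q_pos (y : ℕ) : 0 < Q y := by
  unfold Q
  apply Finset.prod_pos
  intro p hp
  simp only [mem_filter] at hp
  exact hp.2.pos

lemma Q_le (y : ℕ) : Q y ≤ 4 ^ y :=
  (Nat.le_of_dvd (primorial_pos y) (Q_dvd y)).trans (primorial_le_four_pow y)

lemma dvd_Q {y p : ℕ} (hp : p.Prime) (h2 : p ≠ 2) (hy : p ≤ y) : p ∣ Q y := by
  unfold Q
  apply Finset.dvd_prod_of_mem (fun p => p)
  simp only [mem_filter, mem_Ioc]
  have := hp.two_le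
  exact ⟨⟨by omega, hy⟩, hp⟩

lemma Q_odd (y : ℕ) : Odd (Q y) := by
  unfold Q
  apply Finset.prod_induction _ Odd (fun a b ha hb => ha.mul hb) odd_one
  intro p hp
  simp only [mem_filter, mem_Ioc] at hp
  exact hp.2.odd_of_ne_two (by omega)

lemma Q_coprime {y p : ℕ} (hp : p.Prime) (hy : y < p) : Nat.Coprime (Q y) p := by
  unfold Q
  apply Nat.Coprime.prod_left
  intro q hq
  simp only [mem_filter, mem_Ioc] at hq
  exact (Nat.coprime_primes hq.2 hp).2 (by omega)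

/-- The primes in `(a, b]`. -/
def pr (a b : ℕ) : Finset ℕ := (Ioc a b).filter Nat.Prime

lemma card_dyadic (i : ℕ) : (pr (2 ^ i) (2 ^ (i + 1))).card * i ≤ 4 * 2 ^ i := by
  have h1 : (2 ^ i) ^ (pr (2 ^ i) (2 ^ (i + 1))).card ≤ ∏ p ∈ pr (2 ^ i) (2 ^ (i + 1)), p := by
    apply Finset.pow_card_le_prod
    intro p hp
    simp only [pr, mem_filter, mem_Ioc] at hp
    exact hp.1.1.le
  have h2 : ∏ p ∈ pr (2 ^ i) (2 ^ (i + 1)), p ≤ primorial (2 ^ (i + 1)) := by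
    apply Nat.le_of_dvd (primorial_pos _)
    unfold primorial
    apply Finset.prod_dvd_prod_of_subset
    intro p hp
    simp only [pr, mem_filter, mem_Ioc, mem_range] at hp ⊢
    exact ⟨by omega, hp.2⟩
  have h3 := (h1.trans h2).trans (primorial_le_four_pow _)
  rw [← pow_mul, show (4 : ℕ) = 2 ^ 2 by norm_num, ← pow_mul] at h3
  have h4 := (Nat.pow_le_pow_iff_right (by norm_num : 1 < 2)).1 h3
  calc (pr (2 ^ i) (2 ^ (i + 1))).card * i = i * (pr (2 ^ i) (2 ^ (i + 1))).card := by ring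
    _ ≤ 2 * 2 ^ (i + 1) := h4
    _ = 4 * 2 ^ i := by ring

lemma sum_sq {b : ℕ} (hb : 1 ≤ b) (e : ℕ) (he : b ≤ e) :
    ∑ p ∈ pr (2 ^ b) (2 ^ e), (1 : ℝ) / (p : ℝ) ^ 2 ≤ 8 / b * (1 / 2 ^ b - 1 / 2 ^ e) := by
  induction e, he using Nat.le_induction with
  | base => simp [pr]
  | succ e he ih =>
    have hsplit : pr (2 ^ b) (2 ^ (e + 1)) = pr (2 ^ b) (2 ^ e) ∪ pr (2 ^ e) (2 ^ (e + 1)) := by
      unfold pr
      rw [← Finset.filter_union, Finset.Ioc_union_Ioc_eq_Ioc]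
      · exact Nat.pow_le_pow_right (by norm_num) he
      · exact Nat.pow_le_pow_right (by norm_num) (by omega)
    have hb0 : (0 : ℝ) < b := by exact_mod_cast hb
    have he0 : (0 : ℝ) < e := by exact_mod_cast (by omega : 0 < e)
    have h2e : (0 : ℝ) < 2 ^ e := by positivity
    have hnew : ∑ p ∈ pr (2 ^ e) (2 ^ (e + 1)), (1 : ℝ) / (p : ℝ) ^ 2 ≤ 4 / (b * 2 ^ e) := by
      have h1 : ∑ p ∈ pr (2 ^ e) (2 ^ (e + 1)), (1 : ℝ) / (p : ℝ) ^ 2 ≤
          ∑ p ∈ pr (2 ^ e) (2 ^ (e + 1)), (1 : ℝ) / ((2 : ℝ) ^ e) ^ 2 := by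
        apply Finset.sum_le_sum
        intro p hp
        simp only [pr, mem_filter, mem_Ioc] at hp
        have hp1 : (2 : ℝ) ^ e ≤ p := by exact_mod_cast hp.1.1.le
        apply one_div_le_one_div_of_le (by positivity)
        exact pow_le_pow_left₀ h2e.le hp1 2
      rw [Finset.sum_const, nsmul_eq_mul] at h1
      have h2 : ((pr (2 ^ e) (2 ^ (e + 1))).card : ℝ) * e ≤ 4 * 2 ^ e := by
        exact_mod_cast card_dyadic e
      have hbe : (b : ℝ) ≤ e := by exact_mod_cast he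
      have h3 : ((pr (2 ^ e) (2 ^ (e + 1))).card : ℝ) * b ≤ 4 * 2 ^ e :=
        (mul_le_mul_of_nonneg_left hbe (by positivity)).trans h2
      refine h1.trans ?_
      rw [mul_one_div, div_le_div_iff₀ (by positivity) (by positivity)]
      calc ((pr (2 ^ e) (2 ^ (e + 1))).card : ℝ) * (b * 2 ^ e)
          = ((pr (2 ^ e) (2 ^ (e + 1))).card : ℝ) * b * 2 ^ e := by ring
        _ ≤ 4 * 2 ^ e * 2 ^ e := mul_le_mul_of_nonneg_right h3 h2e.le
        _ = 4 * (2 ^ e) ^ 2 := by ring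
    have hdisj : ∑ p ∈ pr (2 ^ b) (2 ^ e) ∪ pr (2 ^ e) (2 ^ (e + 1)), (1 : ℝ) / (p : ℝ) ^ 2 ≤
        ∑ p ∈ pr (2 ^ b) (2 ^ e), (1 : ℝ) / (p : ℝ) ^ 2 +
          ∑ p ∈ pr (2 ^ e) (2 ^ (e + 1)), (1 : ℝ) / (p : ℝ) ^ 2 := by
      rw [← Finset.sum_union_inter]
      have : 0 ≤ ∑ p ∈ pr (2 ^ b) (2 ^ e) ∩ pr (2 ^ e) (2 ^ (e + 1)), (1 : ℝ) / (p : ℝ) ^ 2 :=
        Finset.sum_nonneg fun p _ => by positivity
      linarith
    rw [hsplit]
    refine hdisj.trans ((add_le_add ih hnew).trans (le_of_eq ?_))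
    rw [pow_succ]
    field_simp
    ring

lemma card_bad {q p M k : ℕ} (hp : p.Prime) (hq : Nat.Coprime q p) :
    ((Ioc 0 M).filter (fun m => q * m ≡ 2 ^ k [MOD p ^ 2])).card ≤ M / p ^ 2 + 1 := by
  have hp2 : 0 < p ^ 2 := pow_pos hp.pos 2
  have hcop : Nat.Coprime (p ^ 2) q := (Nat.Coprime.pow_left 2 hq.symm)
  by_cases hne : ((Ioc 0 M).filter (fun m => q * m ≡ 2 ^ k [MOD p ^ 2])).Nonempty
  · obtain ⟨v, hv⟩ := hne
    simp only [mem_filter] at hv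
    have hsub : (Ioc 0 M).filter (fun m => q * m ≡ 2 ^ k [MOD p ^ 2]) ⊆
        (Ioc 0 M).filter (fun m => m ≡ v [MOD p ^ 2]) := by
      intro m hm
      simp only [mem_filter] at hm ⊢
      exact ⟨hm.1, Nat.ModEq.cancel_left_of_coprime hcop (hm.2.trans hv.2.symm)⟩
    refine (Finset.card_le_card hsub).trans ?_
    have h1 := Nat.Ioc_filter_modEq_card 0 M hp2 v
    have h2 : (((Ioc 0 M).filter (fun m => m ≡ v [MOD p ^ 2])).card : ℤ) ≤
        ((M / p ^ 2 + 1 : ℕ) : ℤ) := by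
      rw [h1]
      apply max_le
      · have hr : (0 : ℚ) < ((p ^ 2 : ℕ) : ℚ) := by exact_mod_cast hp2
        have e1 := Int.floor_le (((M : ℚ) - v) / ((p ^ 2 : ℕ) : ℚ))
        have e2 := Int.lt_floor_add_one ((((0 : ℕ) : ℚ) - v) / ((p ^ 2 : ℕ) : ℚ))
        have e3 : ((M : ℚ) - v) / ((p ^ 2 : ℕ) : ℚ) - (((0 : ℕ) : ℚ) - v) / ((p ^ 2 : ℕ) : ℚ) =
            (M : ℚ) / ((p ^ 2 : ℕ) : ℚ) := by
          rw [← sub_div]
          congr 1
          push_cast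
          ring
        have e4 : (M : ℚ) / ((p ^ 2 : ℕ) : ℚ) < ((M / p ^ 2 : ℕ) : ℚ) + 1 := by
          rw [div_lt_iff₀ hr]
          have := Nat.lt_div_mul_add (a := M) hp2
          have h5 : M < (M / p ^ 2 + 1) * p ^ 2 := by
            rw [add_mul, one_mul]
            exact this
          exact_mod_cast h5
        have e5 : (⌊((M : ℚ) - v) / ((p ^ 2 : ℕ) : ℚ)⌋ : ℚ) -
            (⌊(((0 : ℕ) : ℚ) - v) / ((p ^ 2 : ℕ) : ℚ)⌋ : ℚ) < ((M / p ^ 2 : ℕ) : ℚ) + 2 := by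
          linarith
        have key : ∀ (x z : ℤ) (w : ℕ), (x : ℚ) - (z : ℚ) < (w : ℚ) + 2 →
            x - z ≤ ((w + 1 : ℕ) : ℤ) := by
          intro x z w h
          have : x - z < (w : ℤ) + 2 := by exact_mod_cast h
          push_cast
          omega
        exact key _ _ _ e5
      · positivity
    exact_mod_cast h2
  · rw [Finset.not_nonempty_iff_eq_empty] at hne
    rw [hne]
    simp

/-- The values of `m ≤ M` for which `Q m - 2 ^ k` may be divisible by the square of a prime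
`p > y`, for some `k < 8 y`. -/
def bad (b : ℕ) : Finset ℕ :=
  (range (8 * 2 ^ b)).biUnion fun k =>
    (pr (2 ^ b) (2 ^ (4 * 2 ^ b))).biUnion fun p =>
      (Ioc 0 (2 ^ (6 * 2 ^ b))).filter (fun m => Q (2 ^ b) * m ≡ 2 ^ k [MOD p ^ 2])

lemma card_bad_le {b : ℕ} (hb : 1 ≤ b) :
    ((bad b).card : ℝ) ≤
      64 / b * 2 ^ (6 * 2 ^ b) + 8 * 2 ^ b * 2 ^ (4 * 2 ^ b) := by
  have hb0 : (0 : ℝ) < b := by exact_mod_cast hb
  have hble : b ≤ 4 * 2 ^ b := by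
    have : b < 2 ^ b := Nat.lt_two_pow_self
    omega
  have h1 : (bad b).card ≤ ∑ _k ∈ range (8 * 2 ^ b), ∑ p ∈ pr (2 ^ b) (2 ^ (4 * 2 ^ b)),
      (2 ^ (6 * 2 ^ b) / p ^ 2 + 1) := by
    unfold bad
    refine Finset.card_biUnion_le.trans (Finset.sum_le_sum fun k _ => ?_)
    refine Finset.card_biUnion_le.trans (Finset.sum_le_sum fun p hp => ?_)
    simp only [pr, mem_filter, mem_Ioc] at hp
    exact card_bad hp.2 (Q_coprime hp.2 hp.1.1)
  rw [Finset.sum_const, card_range, smul_eq_mul, Finset.sum_add_distrib, Finset.sum_const,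
    smul_eq_mul, mul_one] at h1
  have hcard : (pr (2 ^ b) (2 ^ (4 * 2 ^ b))).card ≤ 2 ^ (4 * 2 ^ b) := by
    refine (Finset.card_filter_le _ _).trans ?_
    rw [Nat.card_Ioc]
    exact Nat.sub_le _ _
  have h2 : ((∑ p ∈ pr (2 ^ b) (2 ^ (4 * 2 ^ b)), (2 ^ (6 * 2 ^ b) / p ^ 2) : ℕ) : ℝ) ≤
      2 ^ (6 * 2 ^ b) * (8 / b * (1 / 2 ^ b)) := by
    have h3 := sum_sq hb (4 * 2 ^ b) hble
    have h4 : ((∑ p ∈ pr (2 ^ b) (2 ^ (4 * 2 ^ b)), (2 ^ (6 * 2 ^ b) / p ^ 2) : ℕ) : ℝ) ≤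
        ∑ p ∈ pr (2 ^ b) (2 ^ (4 * 2 ^ b)), (2 : ℝ) ^ (6 * 2 ^ b) * (1 / (p : ℝ) ^ 2) := by
      push_cast
      apply Finset.sum_le_sum
      intro p _
      refine (Nat.cast_div_le).trans ?_
      push_cast
      rw [mul_one_div]
    rw [← Finset.mul_sum] at h4
    refine h4.trans (mul_le_mul_of_nonneg_left (h3.trans ?_) (by positivity))
    apply mul_le_mul_of_nonneg_left _ (by positivity)
    have : (0 : ℝ) < 1 / 2 ^ (4 * 2 ^ b) := by positivity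
    linarith
  have h5 : ((bad b).card : ℝ) ≤ ((8 * 2 ^ b * (∑ p ∈ pr (2 ^ b) (2 ^ (4 * 2 ^ b)),
      (2 ^ (6 * 2 ^ b) / p ^ 2) + (pr (2 ^ b) (2 ^ (4 * 2 ^ b))).card) : ℕ) : ℝ) := by
    exact_mod_cast h1
  rw [Nat.cast_mul, Nat.cast_add] at h5
  have h6 : ((pr (2 ^ b) (2 ^ (4 * 2 ^ b))).card : ℝ) ≤ 2 ^ (4 * 2 ^ b) := by
    exact_mod_cast hcard
  refine h5.trans ?_
  have h7 : ((8 * 2 ^ b : ℕ) : ℝ) = 8 * 2 ^ b := by push_cast; ring
  rw [h7]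
  calc (8 : ℝ) * 2 ^ b * (((∑ p ∈ pr (2 ^ b) (2 ^ (4 * 2 ^ b)), (2 ^ (6 * 2 ^ b) / p ^ 2) : ℕ) : ℝ)
        + ((pr (2 ^ b) (2 ^ (4 * 2 ^ b))).card : ℝ))
      ≤ 8 * 2 ^ b * (2 ^ (6 * 2 ^ b) * (8 / b * (1 / 2 ^ b)) + 2 ^ (4 * 2 ^ b)) := by
        apply mul_le_mul_of_nonneg_left (add_le_add h2 h6) (by positivity)
    _ = 64 / b * 2 ^ (6 * 2 ^ b) + 8 * 2 ^ b * 2 ^ (4 * 2 ^ b) := by
        field_simp
        ring

/-- The odd numbers `m = 2 i + 1` up to `M = 2 ^ (6 y)`. -/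
def odds (b : ℕ) : Finset ℕ := (range (2 ^ (6 * 2 ^ b - 1))).image (fun i => 2 * i + 1)

lemma card_odds (b : ℕ) : (odds b).card = 2 ^ (6 * 2 ^ b - 1) := by
  unfold odds
  rw [Finset.card_image_of_injective _ (fun a b h => by simpa using h), card_range]

lemma exists_m {b : ℕ} (hb : 257 ≤ b) : ∃ m ∈ odds b, m ∉ bad b := by
  by_contra hcon
  push Not at hcon
  have hsub : odds b ⊆ bad b := hcon
  have h1 : ((odds b).card : ℝ) ≤ (bad b).card := by exact_mod_cast Finset.card_le_card hsub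
  have h2 := h1.trans (card_bad_le (by omega : 1 ≤ b))
  rw [card_odds] at h2
  have hy : 1 ≤ 2 ^ b := Nat.one_le_two_pow
  have h3 : ((2 ^ (6 * 2 ^ b - 1) : ℕ) : ℝ) = 2 ^ (6 * 2 ^ b) / 2 := by
    have : 6 * 2 ^ b = (6 * 2 ^ b - 1) + 1 := by omega
    rw [eq_div_iff two_ne_zero]
    push_cast
    rw [← pow_succ, ← this]
  rw [h3] at h2
  have hb0 : (257 : ℝ) ≤ b := by exact_mod_cast hb
  have h4 : (64 : ℝ) / b ≤ 64 / 257 := by
    apply div_le_div_of_nonneg_left (by norm_num) (by norm_num) hb0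
  have h5 : (64 : ℝ) / b * 2 ^ (6 * 2 ^ b) ≤ 64 / 257 * 2 ^ (6 * 2 ^ b) :=
    mul_le_mul_of_nonneg_right h4 (by positivity)
  -- `8 y 2 ^ (4 y) ≤ 2 ^ (6 y) / 4`
  have h6 : 8 * 2 ^ b * 2 ^ (4 * 2 ^ b) * 4 ≤ 2 ^ (6 * 2 ^ b) := by
    have e1 : 2 ^ b < 2 ^ (2 ^ b) := Nat.lt_two_pow_self
    have e2 : (2 : ℕ) ^ 5 ≤ 2 ^ (2 ^ b) := by
      apply Nat.pow_le_pow_right (by norm_num)
      calc 5 ≤ b := by omega
        _ ≤ 2 ^ b := Nat.lt_two_pow_self.le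
    calc 8 * 2 ^ b * 2 ^ (4 * 2 ^ b) * 4 = (2 ^ 5 * 2 ^ b) * 2 ^ (4 * 2 ^ b) := by ring
      _ ≤ (2 ^ (2 ^ b) * 2 ^ (2 ^ b)) * 2 ^ (4 * 2 ^ b) :=
        Nat.mul_le_mul_right _ (Nat.mul_le_mul e2 e1.le)
      _ = 2 ^ (6 * 2 ^ b) := by
        rw [← pow_add, ← pow_add]
        congr 1
        ring
  have h7 : (8 : ℝ) * 2 ^ b * 2 ^ (4 * 2 ^ b) * 4 ≤ 2 ^ (6 * 2 ^ b) := by exact_mod_cast h6
  have h8 : (0 : ℝ) < 2 ^ (6 * 2 ^ b) := by positivity
  have h9 := h2.trans (add_le_add_left h5 _)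
  nlinarith

lemma exists_good {b : ℕ} (hb : 257 ≤ b) : ∃ m, Odd m ∧ Good (Q (2 ^ b) * m) := by
  obtain ⟨m, hm, hmb⟩ := exists_m hb
  have hy : 1 ≤ 2 ^ b := Nat.one_le_two_pow
  have hy3 : 3 ≤ 2 ^ b := by
    calc 3 ≤ b := by omega
      _ ≤ 2 ^ b := Nat.lt_two_pow_self.le
  simp only [odds, mem_image, mem_range] at hm
  obtain ⟨i, hi, rfl⟩ := hm
  have hMeq : 2 ^ (6 * 2 ^ b) = 2 * 2 ^ (6 * 2 ^ b - 1) := by
    rw [← pow_succ']
    congr 1
    omega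
  have hmM : 2 * i + 1 ≤ 2 ^ (6 * 2 ^ b) := by omega
  have hodd : Odd (2 * i + 1) := ⟨i, rfl⟩
  refine ⟨2 * i + 1, hodd, ?_, ?_⟩
  · have h3 : 3 ∣ Q (2 ^ b) := dvd_Q Nat.prime_three (by norm_num) hy3
    have h4 : 3 ≤ Q (2 ^ b) := Nat.le_of_dvd (Q_pos _) h3
    nlinarith
  · intro k hk hkn
    have hn : Q (2 ^ b) * (2 * i + 1) ≤ 2 ^ (8 * 2 ^ b) := by
      calc Q (2 ^ b) * (2 * i + 1) ≤ 4 ^ (2 ^ b) * 2 ^ (6 * 2 ^ b) :=
            Nat.mul_le_mul (Q_le _) hmM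
        _ = 2 ^ (8 * 2 ^ b) := by
            rw [show (4 : ℕ) = 2 ^ 2 by norm_num, ← pow_mul, ← pow_add]
            congr 1
            ring
    have hk8 : k < 8 * 2 ^ b := by
      have := hkn.trans_le hn
      exact (Nat.pow_lt_pow_iff_right (by norm_num : 1 < 2)).1 this
    rw [Nat.squarefree_iff_prime_squarefree]
    intro p hp hpd
    have hnodd : Odd (Q (2 ^ b) * (2 * i + 1)) := (Q_odd _).mul hodd
    have hpos : 0 < Q (2 ^ b) * (2 * i + 1) - 2 ^ k := Nat.sub_pos_of_lt hkn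
    have hp1 : p ∣ Q (2 ^ b) * (2 * i + 1) - 2 ^ k := (Dvd.intro _ rfl).trans hpd
    rcases eq_or_ne p 2 with rfl | hp2
    · -- `n` is odd
      have h1 : 2 ∣ 2 ^ k := dvd_pow_self 2 (by omega)
      have h2 : 2 ∣ Q (2 ^ b) * (2 * i + 1) := by
        have := (Nat.dvd_add hp1 h1)
        rwa [Nat.sub_add_cancel hkn.le] at this
      exact (Nat.not_even_iff_odd.2 hnodd) (even_iff_two_dvd.2 h2)
    · rcases le_or_gt p (2 ^ b) with hpy | hpy
      · have h1 : p ∣ Q (2 ^ b) * (2 * i + 1) := (dvd_Q hp hp2 hpy).mul_right _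
        have h2 : p ∣ 2 ^ k := by
          have h3 := Nat.dvd_sub h1 hp1
          rwa [Nat.sub_sub_self hkn.le] at h3
        have h4 := hp.dvd_of_dvd_pow h2
        exact hp2 ((Nat.prime_dvd_prime_iff_eq hp Nat.prime_two).1 h4)
      · apply hmb
        unfold bad
        rw [mem_biUnion]
        refine ⟨k, mem_range.2 hk8, ?_⟩
        rw [mem_biUnion]
        refine ⟨p, ?_, ?_⟩
        · simp only [pr, mem_filter, mem_Ioc]
          refine ⟨⟨hpy, ?_⟩, hp⟩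
          have h1 : p * p ≤ 2 ^ (4 * 2 ^ b) * 2 ^ (4 * 2 ^ b) := by
            calc p * p ≤ Q (2 ^ b) * (2 * i + 1) - 2 ^ k := Nat.le_of_dvd hpos hpd
              _ ≤ Q (2 ^ b) * (2 * i + 1) := Nat.sub_le _ _
              _ ≤ 2 ^ (8 * 2 ^ b) := hn
              _ = 2 ^ (4 * 2 ^ b) * 2 ^ (4 * 2 ^ b) := by
                rw [← pow_add]
                congr 1
                ring
          exact Nat.mul_self_le_mul_self_iff.1 h1
        · simp only [mem_filter, mem_Ioc]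
          refine ⟨⟨by omega, hmM⟩, ?_⟩
          rw [Nat.ModEq.comm, Nat.modEq_iff_dvd' hkn.le, pow_two]
          exact hpd

/-- There are infinitely many integers `n ≥ 3` such that `n - 2 ^ k` is squarefree for every `k ≥ 1`
with `2 ^ k < n`. -/
theorem result : {n : ℕ | Good n}.Infinite := by
  rw [Set.infinite_iff_exists_gt]
  intro B
  obtain ⟨p, hpB, hp⟩ := Nat.exists_infinite_primes (B + 3)
  obtain ⟨m, hm, hgood⟩ := exists_good (b := p + 257) (by omega)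
  refine ⟨Q (2 ^ (p + 257)) * m, hgood, ?_⟩
  have hpy : p ≤ 2 ^ (p + 257) := by
    have : p + 257 < 2 ^ (p + 257) := Nat.lt_two_pow_self
    omega
  have h1 : p ∣ Q (2 ^ (p + 257)) := dvd_Q hp (by omega) hpy
  have h2 : p ≤ Q (2 ^ (p + 257)) := Nat.le_of_dvd (Q_pos _) h1
  have h3 : 1 ≤ m := hm.pos
  calc B < p := by omega
    _ ≤ Q (2 ^ (p + 257)) := h2
    _ ≤ Q (2 ^ (p + 257)) * m := Nat.le_mul_of_pos_right _ h3

end Pool.Agent.Results.MP_fcd74d_nt.InfinitelyManyGood
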